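import Pool.Agent.H46.SK.Targets

/-!
# MP_2fe131_nt: module BADW (bad numbers have small logarithmic weight)
-/

namespace Pool.Agent.H47.PO.BADW

open Finset SK

/-- Harmonic sums. -/
theorem harm (k : ℕ) (hk : 1 ≤ k) : ∑ m ∈ Finset.Ico 1 k, (1 : ℝ) / m ≤ 1 + Real.log k := by
  have h1 : ∑ m ∈ Finset.Ico 1 k, (1 : ℝ) / m ≤ ∑ i ∈ Finset.range k, (1 : ℝ) / (i + 1) := by
    have e : ∑ m ∈ Finset.Ico 1 k, (1 : ℝ) / m = ∑ i ∈ Finset.range (k - 1), (1 : ℝ) / (i + 1) := by
      rw [Finset.sum_Ico_eq_sum_range]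
      refine Finset.sum_congr rfl fun i _ => ?_
      push_cast
      ring
    rw [e]
    refine Finset.sum_le_sum_of_subset_of_nonneg ?_ fun i _ _ => by positivity
    intro i hi
    rw [Finset.mem_range] at hi ⊢
    omega
  have h2 := harmonic_le_one_add_log k
  have h3 : ((harmonic k : ℚ) : ℝ) = ∑ i ∈ Finset.range k, (1 : ℝ) / (i + 1) := by
    unfold harmonic
    push_cast
    refine Finset.sum_congr rfl fun i _ => ?_
    rw [one_div]
  rw [h3] at h2
  exact h1.trans h2

/-- Number of prime factors. -/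
theorem omega_le (M k : ℕ) (hM : M ≠ 0) (hMk : M < k ^ 2) (hk : 1 ≤ k) :
    (M.primeFactors.card : ℝ) ≤ 3 * (1 + Real.log k) := by
  have h1 : 2 ^ M.primeFactors.card ≤ M := by
    calc 2 ^ M.primeFactors.card = ∏ p ∈ M.primeFactors, 2 := by rw [Finset.prod_const]
      _ ≤ ∏ p ∈ M.primeFactors, p :=
        Finset.prod_le_prod' fun p hp => (Nat.prime_of_mem_primeFactors hp).two_le
      _ ≤ M := Nat.le_of_dvd (Nat.pos_of_ne_zero hM) (Nat.prod_primeFactors_dvd M)
  have h2 : ((2 : ℝ) ^ M.primeFactors.card) ≤ (k : ℝ) ^ 2 := by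
    exact_mod_cast h1.trans hMk.le
  have h3 := Real.log_le_log (by positivity) h2
  rw [Real.log_pow, Real.log_pow] at h3
  have h4 := Real.log_two_gt_d9
  have h5 : (0 : ℝ) ≤ M.primeFactors.card := Nat.cast_nonneg _
  have h6 : 0 ≤ Real.log k := Real.log_nonneg (by exact_mod_cast hk)
  push_cast at h3
  nlinarith

/-- An integer in a residue class is determined by its sign and its block. -/
theorem uniq {m k : ℕ} (hm : 1 ≤ m) (hcop : Nat.Coprime m k) {b : ℤ} {c c' : ℤ} {j : ℕ}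
    (h1 : (m : ℤ) ∣ b + c * k) (h2 : (m : ℤ) ∣ b + c' * k) (hc : c ≠ 0) (hc' : c' ≠ 0)
    (hs : (0 < c) ↔ (0 < c')) (hj : (c.natAbs - 1) / m = j) (hj' : (c'.natAbs - 1) / m = j) :
    c = c' := by
  have h3 : (m : ℤ) ∣ (c - c') * k := by
    have := dvd_sub h1 h2
    have e : b + c * k - (b + c' * k) = (c - c') * k := by ring
    rwa [e] at this
  have h4 : (m : ℤ) ∣ c - c' :=
    IsCoprime.dvd_of_dvd_mul_right (Nat.isCoprime_iff_coprime.2 hcop) h3
  have a1 : j * m ≤ c.natAbs - 1 := by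
    rw [← hj]
    exact Nat.div_mul_le_self _ _
  have a2 : c.natAbs - 1 < (j + 1) * m := by
    rw [← hj]
    exact Nat.lt_mul_of_div_lt (Nat.lt_succ_self _) (by omega)
  have b1 : j * m ≤ c'.natAbs - 1 := by
    rw [← hj']
    exact Nat.div_mul_le_self _ _
  have b2 : c'.natAbs - 1 < (j + 1) * m := by
    rw [← hj']
    exact Nat.lt_mul_of_div_lt (Nat.lt_succ_self _) (by omega)
  obtain ⟨t, ht⟩ : ∃ t : ℕ, t = j * m := ⟨_, rfl⟩
  have e1 : (j + 1) * m = t + m := by rw [ht]; ring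
  rw [e1] at a2 b2
  rw [← ht] at a1 b1
  have h5 : |c - c'| < m := by
    rw [abs_lt]
    rcases lt_or_ge 0 c with h | h
    · have h' := hs.1 h
      constructor <;> omega
    · have h' : ¬ 0 < c' := fun h0 => absurd (hs.2 h0) (by omega)
      constructor <;> omega
  have h6 := Int.eq_zero_of_abs_lt_dvd h4 h5
  omega

theorem pf_BADW : TARGET_BADW := by
  intro k H Q y hk hk3 hH hHk hQ hy s hs
  classical
  -- choice of the data
  have hex : ∀ n ∈ s, ∃ (b : ℕ) (z c : ℤ) (p : ℕ), 1 ≤ b ∧ b ≤ H ∧ |z| * (Q : ℤ) ≤ (k : ℤ) ∧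
      z * n = b + c * k ∧ p.Prime ∧ y < p ∧ p ∣ n := by
    intro n hn
    obtain ⟨h1, h2, ⟨b, hb1, hb2, z, hz, hbz⟩, p, hp, hyp, hpn⟩ := hs n hn
    have h3 : ((z * n - b : ℤ) : ZMod k) = 0 := by
      push_cast
      rw [hbz]
      ring
    obtain ⟨c, hc⟩ := (ZMod.intCast_zmod_eq_zero_iff_dvd _ k).1 h3
    exact ⟨b, z, c, p, hb1, hb2, hz, by linarith [mul_comm (k : ℤ) c], hp, hyp, hpn⟩
  choose! b z c p hdat using hex
  obtain ⟨L, hL⟩ : ∃ L : ℝ, L = 1 + Real.log k := ⟨_, rfl⟩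
  have hL1 : 1 ≤ L := by
    rw [hL]
    have : 0 ≤ Real.log k := Real.log_nonneg (by exact_mod_cast (by omega : 1 ≤ k))
    linarith
  have hk0 : 0 < k := by omega
  -- facts
  have hn1 : ∀ n ∈ s, 1 ≤ n ∧ n < k ∧ H < n := fun n hn =>
    ⟨by have := (hs n hn).2.1; omega, (hs n hn).1, (hs n hn).2.1⟩
  have hm : ∀ n ∈ s, n = p n * (n / p n) ∧ 1 ≤ n / p n ∧ n / p n < k := by
    intro n hn
    obtain ⟨-, -, -, -, hp, hyp, hpn⟩ := hdat n hn
    have h1 : n = p n * (n / p n) := (Nat.mul_div_cancel' hpn).symm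
    have h2 : n / p n ≤ n := Nat.div_le_self _ _
    have h3 := hn1 n hn
    refine ⟨h1, ?_, by omega⟩
    rcases Nat.eq_zero_or_pos (n / p n) with h4 | h4
    · rw [h4] at h1
      omega
    · exact h4
  have hc0 : ∀ n ∈ s, c n ≠ 0 := by
    intro n hn h0
    obtain ⟨hb1, hb2, -, hz, -⟩ := hdat n hn
    rw [h0, zero_mul, add_zero] at hz
    have h1 : (n : ℤ) ∣ (b n : ℤ) := ⟨z n, by linarith [mul_comm (z n) (n : ℤ)]⟩
    have h2 : n ∣ b n := by exact_mod_cast h1
    have h3 := Nat.le_of_dvd (by omega) h2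
    have := hn1 n hn
    omega
  have hcn : ∀ n ∈ s, Q * ((c n).natAbs - 1) < n := by
    intro n hn
    obtain ⟨hb1, hb2, hzQ, hz, -⟩ := hdat n hn
    obtain ⟨g1, g2, g3⟩ := hn1 n hn
    have h1 : |c n| * k ≤ |z n| * n + b n := by
      have e : c n * k = z n * n - b n := by linarith
      have h2 : |c n * k| ≤ |z n * n| + |(b n : ℤ)| := by
        rw [e]
        exact abs_sub _ _
      rwa [abs_mul, abs_mul, Nat.abs_cast, Nat.abs_cast, Nat.abs_cast] at h2
    have hQ0 : (0 : ℤ) < Q := by exact_mod_cast hQ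
    have hk0' : (0 : ℤ) < k := by exact_mod_cast hk0
    have hn0 : (0 : ℤ) < n := by exact_mod_cast g1
    have h2 : (Q : ℤ) * |c n| * k < (n + Q) * k := by
      have h3 : (Q : ℤ) * (|c n| * k) ≤ Q * (|z n| * n + b n) :=
        mul_le_mul_of_nonneg_left h1 hQ0.le
      have h4 : (|z n| * Q) * n ≤ k * n := mul_le_mul_of_nonneg_right hzQ hn0.le
      have h5 : (Q : ℤ) * b n < Q * k := by
        apply mul_lt_mul_of_pos_left _ hQ0
        exact_mod_cast (by omega : b n < k)
      nlinarith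
    have h3 : (Q : ℤ) * |c n| < n + Q := lt_of_mul_lt_mul_right h2 hk0'.le
    have h4 : ((c n).natAbs : ℤ) = |c n| := Int.natCast_natAbs _
    have h5 : 1 ≤ (c n).natAbs := by
      have := hc0 n hn
      omega
    have h6 : ((Q * ((c n).natAbs - 1) : ℕ) : ℤ) < (n : ℤ) := by
      push_cast [Nat.cast_sub h5]
      linarith [mul_sub (Q : ℤ) |c n| 1]
    exact_mod_cast h6
  have hM : ∀ n ∈ s, (z n * n).natAbs ≠ 0 ∧ (z n * n).natAbs < k ^ 2 := by
    intro n hn
    obtain ⟨hb1, hb2, hzQ, hz, -⟩ := hdat n hn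
    obtain ⟨g1, g2, g3⟩ := hn1 n hn
    constructor
    · intro h0
      have h1 := Int.natAbs_eq_zero.1 h0
      rw [h1] at hz
      have h2 : (k : ℤ) ∣ (b n : ℤ) := ⟨-c n, by linarith [mul_comm (c n) (k : ℤ)]⟩
      have h3 : k ∣ b n := by exact_mod_cast h2
      have h4 := Nat.le_of_dvd (by omega) h3
      omega
    · have h1 : (z n).natAbs ≤ k := by
        have h2 : |z n| * 1 ≤ |z n| * Q :=
          mul_le_mul_of_nonneg_left (by exact_mod_cast hQ) (abs_nonneg _)
        have h3 : |z n| ≤ k := by linarith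
        have h4 : ((z n).natAbs : ℤ) = |z n| := Int.natCast_natAbs _
        have h5 : ((z n).natAbs : ℤ) ≤ k := by rw [h4]; exact h3
        exact_mod_cast h5
      rw [Int.natAbs_mul, Int.natAbs_natCast, sq]
      calc (z n).natAbs * n ≤ k * n := Nat.mul_le_mul_right _ h1
        _ < k * k := Nat.mul_lt_mul_of_pos_left g2 hk0
  -- the map to the boxes
  let τ : ℕ → ℕ × ℕ × ℕ × Bool := fun n =>
    (n / p n, b n, ((c n).natAbs - 1) / (n / p n), decide (0 < c n))
  let TT : Finset (ℕ × ℕ × ℕ × Bool) :=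
    (Finset.Ico 1 k) ×ˢ (Finset.Icc 1 H) ×ˢ (Finset.range k) ×ˢ (Finset.univ : Finset Bool)
  let W : ℕ × ℕ × ℕ × Bool → ℝ := fun t =>
    1 / t.1 * (if t.2.2.1 = 0 then 1 / (y : ℝ) else 1 / Q * (1 / t.2.2.1))
  have hτ : ∀ n ∈ s, τ n ∈ TT := by
    intro n hn
    obtain ⟨hb1, hb2, -⟩ := hdat n hn
    obtain ⟨g1, g2, g3⟩ := hn1 n hn
    obtain ⟨m1, m2, m3⟩ := hm n hn
    simp only [τ, TT, Finset.mem_product, Finset.mem_Ico, Finset.mem_Icc, Finset.mem_range,
      Finset.mem_univ, and_true]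
    refine ⟨⟨m2, m3⟩, ⟨hb1, hb2⟩, ?_⟩
    have h1 := hcn n hn
    have h2 : ((c n).natAbs - 1) / (n / p n) ≤ (c n).natAbs - 1 := Nat.div_le_self _ _
    have h3 : (c n).natAbs - 1 ≤ Q * ((c n).natAbs - 1) := Nat.le_mul_of_pos_left _ (by omega)
    omega
  have hWn : ∀ n ∈ s, (1 : ℝ) / n ≤ W (τ n) := by
    intro n hn
    obtain ⟨-, -, -, -, hp, hyp, hpn⟩ := hdat n hn
    obtain ⟨m1, m2, m3⟩ := hm n hn
    have h1 := hcn n hn
    simp only [W, τ]
    obtain ⟨m, hmm⟩ : ∃ m, m = n / p n := ⟨_, rfl⟩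
    rw [← hmm] at m1 m2 m3 ⊢
    have hm0 : (0 : ℝ) < m := by exact_mod_cast (by omega : 0 < m)
    have hy0 : (0 : ℝ) < y := by exact_mod_cast (by omega : 0 < y)
    have hQ0 : (0 : ℝ) < Q := by exact_mod_cast (by omega : 0 < Q)
    have hn0 : (0 : ℝ) < n := by exact_mod_cast (by have := (hn1 n hn).1; omega : 0 < n)
    split_ifs with hj
    · rw [div_mul_div_comm, one_mul]
      apply one_div_le_one_div_of_le (by positivity)
      have h2 : (n : ℝ) = p n * m := by exact_mod_cast m1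
      rw [h2, mul_comm]
      apply mul_le_mul_of_nonneg_right _ hm0.le
      exact_mod_cast hyp.le
    · have hj0 : (0 : ℝ) < (((c n).natAbs - 1) / m : ℕ) := by
        exact_mod_cast Nat.pos_of_ne_zero hj
      rw [div_mul_div_comm, div_mul_div_comm, one_mul, one_mul]
      apply one_div_le_one_div_of_le (by positivity)
      have h2 : ((c n).natAbs - 1) / m * m ≤ (c n).natAbs - 1 := Nat.div_mul_le_self _ _
      have h3 : Q * (((c n).natAbs - 1) / m * m) ≤ Q * ((c n).natAbs - 1) :=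
        Nat.mul_le_mul_left _ h2
      have h4 : m * (Q * (((c n).natAbs - 1) / m)) ≤ n := by
        have e : m * (Q * (((c n).natAbs - 1) / m)) = Q * (((c n).natAbs - 1) / m * m) := by ring
        rw [e]
        omega
      exact_mod_cast h4
  -- fibres
  have hfib : ∀ t ∈ TT, (((s.filter fun n => τ n = t).card : ℕ) : ℝ) ≤ 3 * L := by
    intro t _
    rcases (s.filter fun n => τ n = t).eq_empty_or_nonempty with h0 | ⟨n₀, hn₀⟩
    · rw [h0]
      simp only [Finset.card_empty, Nat.cast_zero]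
      linarith
    · have hn₀' := Finset.mem_filter.1 hn₀
      obtain ⟨M1, M2⟩ := hM n₀ hn₀'.1
      have hcard : (s.filter fun n => τ n = t).card ≤
          (z n₀ * n₀).natAbs.primeFactors.card := by
        refine Finset.card_le_card_of_injOn (fun n => p n) ?_ ?_
        · intro n hn
          have hn' := Finset.mem_filter.1 hn
          obtain ⟨d1, d2, d3, d4, d5, d6, d7⟩ := hdat n hn'.1
          obtain ⟨e1, e2, e3, e4, e5, e6, e7⟩ := hdat n₀ hn₀'.1
          have ht : τ n = τ n₀ := hn'.2.trans hn₀'.2.symm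
          simp only [τ, Prod.mk.injEq] at ht
          obtain ⟨t1, t2, t3, t4⟩ := ht
          obtain ⟨m1, m2, m3⟩ := hm n hn'.1
          obtain ⟨m1', m2', m3'⟩ := hm n₀ hn₀'.1
          have hcc : c n = c n₀ := by
            have hcop : Nat.Coprime (n₀ / p n₀) k :=
              (Nat.coprime_of_lt_prime (by omega) m3' hk).symm
            refine uniq m2' hcop (b := (b n₀ : ℤ)) (j := ((c n₀).natAbs - 1) / (n₀ / p n₀))
              ?_ ?_ (hc0 n hn'.1) (hc0 n₀ hn₀'.1) ?_ ?_ rfl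
            · rw [← t2, ← d4, ← t1]
              refine Dvd.dvd.mul_left ?_ _
              exact_mod_cast (⟨p n, by rw [mul_comm]; exact m1⟩ : n / p n ∣ n)
            · rw [← e4]
              refine Dvd.dvd.mul_left ?_ _
              exact_mod_cast (⟨p n₀, by rw [mul_comm]; exact m1'⟩ : n₀ / p n₀ ∣ n₀)
            · exact decide_eq_decide.1 t4
            · rw [← t3, ← t1]
          have hMM : z n * n = z n₀ * n₀ := by
            rw [d4, e4, t2, hcc]
          have : p n ∈ (z n₀ * n₀).natAbs.primeFactors := by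
            rw [Nat.mem_primeFactors]
            refine ⟨d5, ?_, M1⟩
            rw [← hMM, Int.natAbs_mul, Int.natAbs_natCast]
            exact Dvd.dvd.mul_left d7 _
          exact this
        · intro n hn n' hn' hpp
          have hn1' := Finset.mem_filter.1 hn
          have hn2' := Finset.mem_filter.1 hn'
          have ht : τ n = τ n' := hn1'.2.trans hn2'.2.symm
          simp only [τ, Prod.mk.injEq] at ht
          obtain ⟨m1, -, -⟩ := hm n hn1'.1
          obtain ⟨m1', -, -⟩ := hm n' hn2'.1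
          simp only at hpp
          rw [m1, m1', ht.1, hpp]
      have h2 := omega_le _ k M1 M2 (by omega)
      rw [← hL] at h2
      exact (by exact_mod_cast hcard : (((s.filter fun n => τ n = t).card : ℕ) : ℝ) ≤
        ((z n₀ * n₀).natAbs.primeFactors.card : ℝ)).trans h2
  -- the sum
  have hW0 : ∀ t, 0 ≤ W t := by
    intro t
    simp only [W]
    split_ifs <;> positivity
  have hsum : ∑ n ∈ s, (1 : ℝ) / n ≤ ∑ t ∈ TT, 3 * L * W t := by
    rw [← Finset.sum_fiberwise_of_maps_to hτ]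
    refine Finset.sum_le_sum fun t ht => ?_
    calc ∑ n ∈ s.filter (fun n => τ n = t), (1 : ℝ) / n
        ≤ ∑ n ∈ s.filter (fun n => τ n = t), W t := by
          refine Finset.sum_le_sum fun n hn => ?_
          have hn' := Finset.mem_filter.1 hn
          rw [← hn'.2]
          exact hWn n hn'.1
      _ = ((s.filter fun n => τ n = t).card : ℝ) * W t := by
          rw [Finset.sum_const, nsmul_eq_mul]
      _ ≤ 3 * L * W t := mul_le_mul_of_nonneg_right (hfib t ht) (hW0 t)
  refine hsum.trans ?_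
  rw [← Finset.mul_sum]
  have hWs : ∑ t ∈ TT, W t ≤ 2 * H * L * (1 / y + L / Q) := by
    have e : ∑ t ∈ TT, W t = (∑ m ∈ Finset.Ico 1 k, (1 : ℝ) / m) * (H * (2 *
        ∑ j ∈ Finset.range k, (if j = 0 then 1 / (y : ℝ) else 1 / Q * (1 / j)))) := by
      simp only [TT, W]
      rw [Finset.sum_product, Finset.sum_mul]
      refine Finset.sum_congr rfl fun m _ => ?_
      rw [Finset.sum_product]
      simp only [Finset.sum_const, Nat.card_Icc, Nat.add_sub_cancel, nsmul_eq_mul]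
      rw [Finset.sum_product]
      simp only [Finset.sum_const, Finset.card_univ, Fintype.card_bool, nsmul_eq_mul]
      rw [← Finset.mul_sum, ← Finset.mul_sum]
      push_cast
      ring
    have h1 := harm k (by omega)
    rw [← hL] at h1
    have h2 : ∑ j ∈ Finset.range k, (if j = 0 then 1 / (y : ℝ) else 1 / Q * (1 / j)) ≤
        1 / y + L / Q := by
      have e2 : Finset.range k = insert 0 (Finset.Ico 1 k) := by
        ext x
        simp only [Finset.mem_range, Finset.mem_insert, Finset.mem_Ico]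
        omega
      rw [e2, Finset.sum_insert (by simp), if_pos rfl]
      have e3 : ∑ j ∈ Finset.Ico 1 k, (if j = 0 then 1 / (y : ℝ) else 1 / Q * (1 / j)) =
          1 / Q * ∑ j ∈ Finset.Ico 1 k, (1 : ℝ) / j := by
        rw [Finset.mul_sum]
        refine Finset.sum_congr rfl fun j hj => ?_
        rw [Finset.mem_Ico] at hj
        rw [if_neg (by omega)]
      rw [e3]
      have h3 : 1 / (Q : ℝ) * ∑ j ∈ Finset.Ico 1 k, (1 : ℝ) / j ≤ 1 / Q * L :=
        mul_le_mul_of_nonneg_left h1 (by positivity)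
      have e4 : 1 / (Q : ℝ) * L = L / Q := by ring
      rw [e4] at h3
      linarith
    rw [e]
    have h0 : 0 ≤ ∑ j ∈ Finset.range k, (if j = 0 then 1 / (y : ℝ) else 1 / Q * (1 / j)) :=
      Finset.sum_nonneg fun j _ => by split_ifs <;> positivity
    calc (∑ m ∈ Finset.Ico 1 k, (1 : ℝ) / m) * (H * (2 *
        ∑ j ∈ Finset.range k, (if j = 0 then 1 / (y : ℝ) else 1 / Q * (1 / j))))
        ≤ L * (H * (2 * (1 / y + L / Q))) := by
          apply mul_le_mul h1 _ (by positivity) (by linarith)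
          apply mul_le_mul_of_nonneg_left _ (by positivity)
          linarith
      _ = 2 * H * L * (1 / y + L / Q) := by ring
  have h3 := mul_le_mul_of_nonneg_left hWs (by linarith : (0:ℝ) ≤ 3 * L)
  refine h3.trans ?_
  rw [← hL]
  have hy0 : (0 : ℝ) ≤ 1 / y := by positivity
  have hQ0 : (0 : ℝ) ≤ 1 / Q := by positivity
  have e5 : L / (Q : ℝ) = L * (1 / Q) := by ring
  rw [e5]
  have hH0 : (0 : ℝ) ≤ H := Nat.cast_nonneg _
  have h4 : 1 / (y : ℝ) + L * (1 / Q) ≤ L * (1 / y + 1 / Q) := by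
    nlinarith
  have h5 : 3 * L * (2 * H * L * (1 / y + L * (1 / Q))) ≤
      3 * L * (2 * H * L * (L * (1 / y + 1 / Q))) := by
    apply mul_le_mul_of_nonneg_left _ (by linarith)
    apply mul_le_mul_of_nonneg_left h4
    positivity
  refine h5.trans ?_
  have e6 : 3 * L * (2 * H * L * (L * (1 / (y : ℝ) + 1 / Q))) = 6 * (H * L ^ 3 * (1 / y + 1 / Q)) := by
    ring
  have e7 : 100 * (H : ℝ) * L ^ 3 * (1 / y + 1 / Q) = 100 * (H * L ^ 3 * (1 / y + 1 / Q)) := by ring
  rw [e6, e7]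
  have : 0 ≤ (H : ℝ) * L ^ 3 * (1 / y + 1 / Q) := by positivity
  linarith

end Pool.Agent.H47.PO.BADW
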