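import Pool.Agent.H46.SK.Targets

/-!
# MP_2fe131_nt: module KAR (the bilinear inequality)
-/

namespace Pool.Agent.H47.PO.KAR

open Finset SK

/-- Weighted power mean. -/
theorem pm {ι : Type} (s : Finset ι) (w z : ι → ℝ) (hw : ∀ i ∈ s, 0 ≤ w i)
    (hz : ∀ i ∈ s, 0 ≤ z i) (n : ℕ) :
    (∑ i ∈ s, w i * z i) ^ (n + 1) ≤ (∑ i ∈ s, w i) ^ n * ∑ i ∈ s, w i * z i ^ (n + 1) := by
  rcases eq_or_lt_of_le (Finset.sum_nonneg hw) with h0 | h0
  · have h1 : ∀ i ∈ s, w i = 0 := by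
      intro i hi
      have := (Finset.sum_eq_zero_iff_of_nonneg hw).1 h0.symm i hi
      exact this
    rw [Finset.sum_eq_zero fun i hi => by rw [h1 i hi, zero_mul]]
    rw [Finset.sum_eq_zero (s := s) (f := fun i => w i * z i ^ (n + 1))
      fun i hi => by rw [h1 i hi, zero_mul]]
    simp
  · obtain ⟨W, hW⟩ : ∃ W, W = ∑ i ∈ s, w i := ⟨_, rfl⟩
    rw [← hW] at h0 ⊢
    have h1 := Real.pow_arith_mean_le_arith_mean_pow s (fun i => w i / W) z
      (fun i hi => div_nonneg (hw i hi) h0.le) (by rw [← Finset.sum_div, ← hW, div_self h0.ne'])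
      hz (n + 1)
    have e1 : ∑ i ∈ s, w i / W * z i = (∑ i ∈ s, w i * z i) / W := by
      rw [Finset.sum_div]
      exact Finset.sum_congr rfl fun i _ => by ring
    have e2 : ∑ i ∈ s, w i / W * z i ^ (n + 1) = (∑ i ∈ s, w i * z i ^ (n + 1)) / W := by
      rw [Finset.sum_div]
      exact Finset.sum_congr rfl fun i _ => by ring
    rw [e1, e2, div_pow, div_le_div_iff₀ (by positivity) h0] at h1
    have e3 : (∑ i ∈ s, w i * z i ^ (n + 1)) * W ^ (n + 1) =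
        (W ^ n * ∑ i ∈ s, w i * z i ^ (n + 1)) * W := by ring
    rw [e3] at h1
    exact le_of_mul_le_mul_right h1 h0

variable {k : ℕ} [Fact k.Prime]

/-- `F` is the Fourier transform of a nonnegative function. -/
def Pos (F : ZMod k → ℂ) : Prop :=
  ∃ K : ZMod k → ℝ, (∀ μ, 0 ≤ K μ) ∧ ∀ a, F a = ∑ μ, (K μ : ℂ) * ZMod.stdAddChar (a * μ)

theorem pos_one : Pos (fun _ : ZMod k => (1 : ℂ)) := by
  refine ⟨fun μ => if μ = 0 then 1 else 0, fun μ => by simp only; split_ifs <;> norm_num,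
    fun a => ?_⟩
  rw [Finset.sum_eq_single 0]
  · simp
  · intro b _ hb
    simp [hb]
  · simp

theorem pos_base (A : Finset ℕ) (α : ℕ → ℝ) (ξ : ℕ → ZMod k) (hα : ∀ i ∈ A, 0 ≤ α i) :
    Pos (fun a => ∑ i ∈ A, (α i : ℂ) * ZMod.stdAddChar (a * ξ i)) := by
  classical
  refine ⟨fun μ => ∑ i ∈ A.filter (fun i => ξ i = μ), α i, fun μ => ?_, fun a => ?_⟩
  · exact Finset.sum_nonneg fun i hi => hα i (Finset.mem_filter.1 hi).1
  · have e : ∀ μ : ZMod k, ((∑ i ∈ A.filter (fun i => ξ i = μ), α i : ℝ) : ℂ) *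
        ZMod.stdAddChar (a * μ) = ∑ i ∈ A.filter (fun i => ξ i = μ),
          (α i : ℂ) * ZMod.stdAddChar (a * ξ i) := by
      intro μ
      rw [Complex.ofReal_sum, Finset.sum_mul]
      refine Finset.sum_congr rfl fun i hi => ?_
      rw [(Finset.mem_filter.1 hi).2]
    simp only [e]
    rw [Finset.sum_fiberwise]

theorem pos_mul {F G : ZMod k → ℂ} (hF : Pos F) (hG : Pos G) : Pos (fun a => F a * G a) := by
  obtain ⟨K, hK, hK2⟩ := hF
  obtain ⟨L, hL, hL2⟩ := hG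
  refine ⟨fun μ => ∑ ν, K ν * L (μ - ν), fun μ => Finset.sum_nonneg fun ν _ =>
    mul_nonneg (hK _) (hL _), fun a => ?_⟩
  simp only
  rw [hK2, hL2, Finset.sum_mul_sum]
  have e : ∀ μ : ZMod k, ((∑ ν, K ν * L (μ - ν) : ℝ) : ℂ) * ZMod.stdAddChar (a * μ) =
      ∑ ν, (K ν : ℂ) * ZMod.stdAddChar (a * ν) * ((L (μ - ν) : ℂ) *
        ZMod.stdAddChar (a * (μ - ν))) := by
    intro μ
    rw [Complex.ofReal_sum, Finset.sum_mul]
    refine Finset.sum_congr rfl fun ν _ => ?_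
    have : a * μ = a * ν + a * (μ - ν) := by ring
    rw [this, AddChar.map_add_eq_mul]
    push_cast
    ring
  simp only [e]
  refine Eq.trans ?_ Finset.sum_comm
  refine Finset.sum_congr rfl fun ν _ => ?_
  refine Fintype.sum_equiv (Equiv.addRight ν) _ _ fun j => ?_
  simp only [Equiv.coe_addRight, add_sub_cancel_right]

theorem pos_conj {F : ZMod k → ℂ} (hF : Pos F) : Pos (fun a => (starRingEnd ℂ) (F a)) := by
  obtain ⟨K, hK, hK2⟩ := hF
  refine ⟨fun μ => K (-μ), fun μ => hK _, fun a => ?_⟩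
  simp only
  rw [hK2, map_sum]
  refine Fintype.sum_equiv (Equiv.neg _) _ _ fun μ => ?_
  rw [map_mul, Complex.conj_ofReal, Equiv.neg_apply, neg_neg, mul_neg,
    ← AddChar.map_neg_eq_conj]

theorem pos_pow {F : ZMod k → ℂ} (hF : Pos F) (n : ℕ) : Pos (fun a => F a ^ n) := by
  induction n with
  | zero => simpa using pos_one
  | succ n ih =>
    simp only [pow_succ]
    exact pos_mul ih hF

theorem orth (c : ZMod k) : ∑ a : ZMod k, ZMod.stdAddChar (a * c) =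
    if c = 0 then (k : ℂ) else 0 := by
  have h := AddChar.sum_mulShift (R := ZMod k) (R' := ℂ) c
    (ψ := ZMod.stdAddChar) (ZMod.isPrimitive_stdAddChar k)
  rw [ZMod.card] at h
  rw [h]
  split_ifs <;> simp

/-- Parseval. -/
theorem parseval (K : ZMod k → ℝ) (F : ZMod k → ℂ)
    (hF : ∀ a, F a = ∑ μ, (K μ : ℂ) * ZMod.stdAddChar (a * μ)) :
    ∑ a, ‖F a‖ ^ 2 = k * ∑ μ, K μ ^ 2 := by
  have h1 : ((∑ a, ‖F a‖ ^ 2 : ℝ) : ℂ) = ((k * ∑ μ, K μ ^ 2 : ℝ) : ℂ) := by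
    have e1 : ∀ a, ((‖F a‖ ^ 2 : ℝ) : ℂ) = ∑ μ, ∑ ν, ((K μ : ℂ) * K ν) *
        ZMod.stdAddChar (a * (μ - ν)) := by
      intro a
      push_cast
      rw [← Complex.mul_conj', hF, map_sum, Finset.sum_mul_sum]
      refine Finset.sum_congr rfl fun μ _ => Finset.sum_congr rfl fun ν _ => ?_
      rw [map_mul (starRingEnd ℂ), Complex.conj_ofReal, ← AddChar.map_neg_eq_conj, mul_sub,
        sub_eq_add_neg, AddChar.map_add_eq_mul]
      ring
    rw [Complex.ofReal_sum]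
    simp only [e1]
    rw [Finset.sum_comm]
    push_cast
    rw [Finset.mul_sum]
    refine Finset.sum_congr rfl fun μ _ => ?_
    rw [Finset.sum_comm, Finset.sum_eq_single μ]
    · rw [← Finset.mul_sum, sub_self, orth, if_pos rfl]
      ring
    · intro ν _ hν
      rw [← Finset.mul_sum, orth, if_neg (sub_ne_zero.2 hν.symm), mul_zero]
    · simp
  exact_mod_cast h1

theorem pf_KAR : TARGET_KAR := by
  intro k s q hk A B α β ξ η b hs hq hb hα hβ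
  obtain ⟨s, rfl⟩ : ∃ m, s = m + 1 := ⟨s - 1, by omega⟩
  obtain ⟨q, rfl⟩ : ∃ m, q = m + 1 := ⟨q - 1, by omega⟩
  -- the two sums
  let g : ZMod k → ℂ := fun a => ∑ i ∈ A, (α i : ℂ) * ZMod.stdAddChar (a * ξ i)
  let h : ZMod k → ℂ := fun a => ∑ j ∈ B, (β j : ℂ) * ZMod.stdAddChar (a * η j)
  have hg : Pos g := pos_base A α ξ hα
  obtain ⟨K, hK0, hK⟩ := pos_mul (pos_pow hg (s + 1)) (pos_conj (pos_pow hg (s + 1)))
  have hKn : ∀ a, ((‖g a‖ ^ (2 * (s + 1)) : ℝ) : ℂ) =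
      ∑ μ, (K μ : ℂ) * ZMod.stdAddChar (a * μ) := by
    intro a
    rw [← hK a]
    simp only
    rw [Complex.mul_conj', norm_pow]
    push_cast
    ring
  -- the sum of K
  have hKs : ∑ μ, K μ = (∑ i ∈ A, α i) ^ (2 * (s + 1)) := by
    have h1 := hKn 0
    have h2 : g 0 = ((∑ i ∈ A, α i : ℝ) : ℂ) := by
      simp [g]
    rw [h2, Complex.norm_real, Real.norm_eq_abs, pow_mul, sq_abs, ← pow_mul] at h1
    simp only [zero_mul, AddChar.map_zero_eq_one, mul_one] at h1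
    exact_mod_cast h1.symm
  have hK2 : ∑ μ, K μ ^ 2 = (∑ a, ‖g a‖ ^ (4 * (s + 1))) / k := by
    have h1 := parseval K (fun a => ((‖g a‖ ^ (2 * (s + 1)) : ℝ) : ℂ)) hKn
    have h2 : ∀ a, ‖((‖g a‖ ^ (2 * (s + 1)) : ℝ) : ℂ)‖ ^ 2 = ‖g a‖ ^ (4 * (s + 1)) := by
      intro a
      rw [Complex.norm_real, Real.norm_eq_abs, sq_abs, ← pow_mul]
      ring_nf
    simp only [h2] at h1
    have hk0 : (k : ℝ) ≠ 0 := by exact_mod_cast hk.out.ne_zero
    rw [h1]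
    field_simp
  -- step 1
  obtain ⟨X, hX⟩ : ∃ X : ℂ, X = ∑ i ∈ A, ∑ j ∈ B, ((α i * β j : ℝ) : ℂ) *
    ZMod.stdAddChar (b * ξ i * η j) := ⟨_, rfl⟩
  have hX2 : X = ∑ j ∈ B, (β j : ℂ) * g (b * η j) := by
    rw [hX, Finset.sum_comm]
    refine Finset.sum_congr rfl fun j _ => ?_
    simp only [g]
    rw [Finset.mul_sum]
    refine Finset.sum_congr rfl fun i _ => ?_
    have : b * ξ i * η j = b * η j * ξ i := by ring
    rw [this]
    push_cast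
    ring
  have hX3 : ‖X‖ ≤ ∑ j ∈ B, β j * ‖g (b * η j)‖ := by
    rw [hX2]
    refine (norm_sum_le _ _).trans (le_of_eq (Finset.sum_congr rfl fun j hj => ?_))
    rw [norm_mul, Complex.norm_real, Real.norm_eq_abs, abs_of_nonneg (hβ j hj)]
  obtain ⟨Y, hY⟩ : ∃ Y : ℝ, Y = ∑ μ, K μ * ‖h (b * μ)‖ := ⟨_, rfl⟩
  have hSβ : 0 ≤ ∑ j ∈ B, β j := Finset.sum_nonneg hβ
  have hSα : 0 ≤ ∑ i ∈ A, α i := Finset.sum_nonneg hα
  have hY0 : 0 ≤ Y := by
    rw [hY]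
    exact Finset.sum_nonneg fun μ _ => mul_nonneg (hK0 μ) (norm_nonneg _)
  have hZ : ∑ j ∈ B, β j * ‖g (b * η j)‖ ^ (2 * s + 1 + 1) ≤ Y := by
    have h1 : ((∑ j ∈ B, β j * ‖g (b * η j)‖ ^ (2 * s + 1 + 1) : ℝ) : ℂ) =
        ∑ μ, (K μ : ℂ) * h (b * μ) := by
      have e : ∀ j ∈ B, ((β j * ‖g (b * η j)‖ ^ (2 * s + 1 + 1) : ℝ) : ℂ) =
          ∑ μ, (K μ : ℂ) * ((β j : ℂ) * ZMod.stdAddChar (b * μ * η j)) := by
        intro j _
        have e0 : 2 * s + 1 + 1 = 2 * (s + 1) := by ring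
        rw [e0, Complex.ofReal_mul, hKn, Finset.mul_sum]
        refine Finset.sum_congr rfl fun μ _ => ?_
        have : b * η j * μ = b * μ * η j := by ring
        rw [this]
        ring
      rw [Complex.ofReal_sum, Finset.sum_congr rfl e, Finset.sum_comm]
      refine Finset.sum_congr rfl fun μ _ => ?_
      simp only [h]
      rw [Finset.mul_sum]
    have h2 : ‖((∑ j ∈ B, β j * ‖g (b * η j)‖ ^ (2 * s + 1 + 1) : ℝ) : ℂ)‖ ≤ Y := by
      rw [h1, hY]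
      refine (norm_sum_le _ _).trans (le_of_eq (Finset.sum_congr rfl fun μ _ => ?_))
      rw [norm_mul, Complex.norm_real, Real.norm_eq_abs, abs_of_nonneg (hK0 μ)]
    rw [Complex.norm_real, Real.norm_eq_abs] at h2
    exact (le_abs_self _).trans h2
  have hstep1 : ‖X‖ ^ (2 * s + 1 + 1) ≤ (∑ j ∈ B, β j) ^ (2 * s + 1) * Y := by
    have h1 := pm B β (fun j => ‖g (b * η j)‖) hβ (fun j _ => norm_nonneg _) (2 * s + 1)
    have h2 : ‖X‖ ^ (2 * s + 1 + 1) ≤ (∑ j ∈ B, β j * ‖g (b * η j)‖) ^ (2 * s + 1 + 1) :=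
      pow_le_pow_left₀ (norm_nonneg _) hX3 _
    refine h2.trans (h1.trans ?_)
    exact mul_le_mul_of_nonneg_left hZ (by positivity)
  -- step 2
  have hstep2 : Y ^ (2 * (q + 1)) ≤ (∑ μ, K μ) ^ (2 * q) *
      ((∑ μ, K μ ^ 2) * ∑ μ, ‖h (b * μ)‖ ^ (2 * (q + 1))) := by
    have h1 := pm Finset.univ K (fun μ => ‖h (b * μ)‖) (fun μ _ => hK0 μ)
      (fun _ _ => norm_nonneg _) q
    rw [← hY] at h1
    have h2 : (Y ^ (q + 1)) ^ 2 ≤ ((∑ μ, K μ) ^ q * ∑ μ, K μ * ‖h (b * μ)‖ ^ (q + 1)) ^ 2 :=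
      pow_le_pow_left₀ (by positivity) h1 _
    have h3 := Finset.sum_mul_sq_le_sq_mul_sq Finset.univ K (fun μ => ‖h (b * μ)‖ ^ (q + 1))
    have e1 : (Y ^ (q + 1)) ^ 2 = Y ^ (2 * (q + 1)) := by rw [← pow_mul]; ring_nf
    rw [e1, mul_pow] at h2
    have e2 : ((∑ μ, K μ) ^ q) ^ 2 = (∑ μ, K μ) ^ (2 * q) := by rw [← pow_mul]; ring_nf
    rw [e2] at h2
    refine h2.trans ?_
    have h4 : 0 ≤ (∑ μ, K μ) ^ (2 * q) := by
      have : 0 ≤ ∑ μ, K μ := Finset.sum_nonneg fun μ _ => hK0 μ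
      positivity
    refine mul_le_mul_of_nonneg_left (h3.trans (le_of_eq ?_)) h4
    congr 1
    refine Finset.sum_congr rfl fun μ _ => ?_
    rw [← pow_mul]
    ring_nf
  have hsum : ∑ μ, ‖h (b * μ)‖ ^ (2 * (q + 1)) = ∑ a, ‖h a‖ ^ (2 * (q + 1)) :=
    Fintype.sum_equiv (Equiv.mulLeft₀ b hb) _ _ fun μ => rfl
  rw [← hX]
  have e1 : 2 * (s + 1) * (2 * (q + 1)) = (2 * s + 1 + 1) * (2 * (q + 1)) := by ring
  have e2 : 2 * (s + 1) - 1 = 2 * s + 1 := by omega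
  have e3 : 2 * (q + 1) - 2 = 2 * q := by omega
  rw [e1, pow_mul, e2, e3]
  have h5 : (‖X‖ ^ (2 * s + 1 + 1)) ^ (2 * (q + 1)) ≤
      ((∑ j ∈ B, β j) ^ (2 * s + 1) * Y) ^ (2 * (q + 1)) :=
    pow_le_pow_left₀ (by positivity) hstep1 _
  refine h5.trans ?_
  rw [mul_pow, ← pow_mul]
  have h6 : 0 ≤ (∑ j ∈ B, β j) ^ ((2 * s + 1) * (2 * (q + 1))) := by positivity
  have h7 := mul_le_mul_of_nonneg_left hstep2 h6
  refine h7.trans (le_of_eq ?_)
  rw [hKs, ← pow_mul, hK2, hsum]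
  ring

end Pool.Agent.H47.PO.KAR
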